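import Pool.Agent.helper33.WD.Defs

/-! # Project WD, module PB: change of variables from the circle to the boundary of the strip -/

set_option autoImplicit false

namespace Pool.Agent.helper33.WD

open Complex MeasureTheory Set

/-- the inverse of `tt x` on one of the two arcs (`e = 1` left, `e = -1` right) -/
noncomputable def PB_th (e x t : ℝ) : ℝ :=
  Real.pi - 2 * Real.arctan ((Real.cos (Real.pi * x) - e * Real.exp (-(Real.pi * t))) /
    Real.sin (Real.pi * x))

lemma PB_sin_pos {x : ℝ} (hx : 0 < x) (hx1 : x < 1) : 0 < Real.sin (Real.pi * x) :=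
  Real.sin_pos_of_pos_of_lt_pi (by positivity) (by nlinarith [Real.pi_pos])

lemma PB_th_mem {e x t : ℝ} : 0 < PB_th e x t ∧ PB_th e x t < 2 * Real.pi := by
  unfold PB_th
  constructor
  · have := Real.arctan_lt_pi_div_two ((Real.cos (Real.pi * x) - e * Real.exp (-(Real.pi * t))) /
      Real.sin (Real.pi * x))
    linarith
  · have := Real.neg_pi_div_two_lt_arctan ((Real.cos (Real.pi * x) -
      e * Real.exp (-(Real.pi * t))) / Real.sin (Real.pi * x))
    linarith

lemma PB_xi_th {e x t : ℝ} (hx : 0 < x) (hx1 : x < 1) :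
    xi x (PB_th e x t) = e * Real.exp (-(Real.pi * t)) := by
  have hs := PB_sin_pos hx hx1
  set A := (Real.cos (Real.pi * x) - e * Real.exp (-(Real.pi * t))) / Real.sin (Real.pi * x)
    with hA
  have h1 : PB_th e x t / 2 = Real.pi / 2 - Real.arctan A := by
    unfold PB_th
    rw [← hA]
    ring
  unfold xi
  rw [h1, Real.sin_sub, Real.sin_pi_div_two_sub, Real.cos_pi_div_two_sub]
  have hc : 0 < Real.cos (Real.arctan A) := Real.cos_arctan_pos A
  have h2 : Real.sin (Real.arctan A) = A * Real.cos (Real.arctan A) := by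
    have := Real.tan_arctan A
    rw [Real.tan_eq_sin_div_cos, div_eq_iff hc.ne'] at this
    exact this
  rw [h2]
  have h3 : Real.sin (Real.pi * x) * A = Real.cos (Real.pi * x) - e * Real.exp (-(Real.pi * t)) := by
    rw [hA]; field_simp
  rw [div_eq_iff hc.ne']
  linear_combination (-Real.cos (Real.arctan A)) * h3

lemma PB_tt_th {e x t : ℝ} (he : |e| = 1) (hx : 0 < x) (hx1 : x < 1) :
    tt x (PB_th e x t) = t := by
  unfold tt
  rw [PB_xi_th hx hx1, abs_mul, he, one_mul, abs_of_pos (Real.exp_pos _), Real.log_exp]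
  have := Real.pi_pos
  field_simp

lemma PB_th_tt {e x θ : ℝ} (hx : 0 < x) (hx1 : x < 1) (h0 : 0 < θ) (h2 : θ < 2 * Real.pi)
    (hne : xi x θ ≠ 0) (he : e * |xi x θ| = xi x θ) : PB_th e x (tt x θ) = θ := by
  have hs := PB_sin_pos hx hx1
  have hsθ : 0 < Real.sin (θ / 2) :=
    Real.sin_pos_of_pos_of_lt_pi (by linarith) (by linarith)
  have h1 : Real.exp (-(Real.pi * tt x θ)) = |xi x θ| := by
    unfold tt
    rw [show -(Real.pi * (-(1 / Real.pi) * Real.log |xi x θ|)) = Real.log |xi x θ| by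
      have := Real.pi_pos
      field_simp]
    exact Real.exp_log (abs_pos.2 hne)
  unfold PB_th
  rw [h1, he]
  have h3 : (Real.cos (Real.pi * x) - xi x θ) / Real.sin (Real.pi * x) =
      Real.tan (Real.pi / 2 - θ / 2) := by
    rw [Real.tan_eq_sin_div_cos, Real.sin_pi_div_two_sub, Real.cos_pi_div_two_sub]
    unfold xi
    rw [Real.sin_sub]
    field_simp
    ring
  rw [h3, Real.arctan_tan (by linarith) (by linarith)]
  ring

lemma PB_kernel_pos {e x t : ℝ} (he : |e| = 1) (hx : 0 < x) (hx1 : x < 1) :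
    0 < Real.cosh (Real.pi * t) - e * Real.cos (Real.pi * x) := by
  have hs := PB_sin_pos hx hx1
  have h1 := Real.one_le_cosh (Real.pi * t)
  have h2 : |Real.cos (Real.pi * x)| < 1 := by
    rw [abs_lt]
    constructor <;> nlinarith [Real.sin_sq_add_cos_sq (Real.pi * x), Real.neg_one_le_cos (Real.pi * x), Real.cos_le_one (Real.pi * x)]
  have h3 : e * Real.cos (Real.pi * x) ≤ |Real.cos (Real.pi * x)| := by
    calc e * Real.cos (Real.pi * x) ≤ |e * Real.cos (Real.pi * x)| := le_abs_self _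
      _ = _ := by rw [abs_mul, he, one_mul]
  linarith

lemma PB_deriv {e x : ℝ} (he : |e| = 1) (hx : 0 < x) (hx1 : x < 1) (t : ℝ) :
    HasDerivAt (PB_th e x) (-(2 * Real.pi * e * (Real.sin (Real.pi * x) /
      (2 * (Real.cosh (Real.pi * t) - e * Real.cos (Real.pi * x)))))) t := by
  have hs := PB_sin_pos hx hx1
  have hk := PB_kernel_pos (t := t) he hx hx1
  have he2 : e * e = 1 := by
    have := abs_mul_abs_self e
    rw [he] at this
    linarith
  have h1 : HasDerivAt (fun t : ℝ => (Real.cos (Real.pi * x) - e * Real.exp (-(Real.pi * t))) /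
      Real.sin (Real.pi * x)) (-(e * (Real.exp (-(Real.pi * t)) * (-(Real.pi * 1)))) /
        Real.sin (Real.pi * x)) t := by
    apply HasDerivAt.div_const
    apply HasDerivAt.const_sub
    apply HasDerivAt.const_mul
    apply HasDerivAt.exp
    exact ((hasDerivAt_id t).const_mul Real.pi).neg
  have h2 := ((h1.arctan).const_mul 2).const_sub Real.pi
  refine h2.congr_deriv ?_
  clear h1 h2
  have hE : 0 < Real.exp (Real.pi * t) := Real.exp_pos _
  rw [Real.cosh_eq] at hk ⊢
  rw [Real.exp_neg] at hk ⊢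
  set E := Real.exp (Real.pi * t) with hEdef
  set s := Real.sin (Real.pi * x) with hsdef
  set c := Real.cos (Real.pi * x) with hcdef
  have hsc : s ^ 2 + c ^ 2 = 1 := Real.sin_sq_add_cos_sq (Real.pi * x)
  have hk' : 0 < E ^ 2 + 1 - 2 * e * c * E := by
    have : 0 < ((E + E⁻¹) / 2 - e * c) * (2 * E) := by positivity
    have h3 : ((E + E⁻¹) / 2 - e * c) * (2 * E) = E ^ 2 + 1 - 2 * e * c * E := by
      field_simp
    linarith
  have hq : s ^ 2 * E ^ 2 + (c * E - e) ^ 2 = E ^ 2 + 1 - 2 * e * c * E := by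
    have : e ^ 2 = 1 := by rw [sq]; exact he2
    linear_combination (E ^ 2) * hsc + this
  have hden : 1 + ((c - e * E⁻¹) / s) ^ 2 = (E ^ 2 + 1 - 2 * e * c * E) / (s ^ 2 * E ^ 2) := by
    rw [← hq]
    field_simp
  have hden2 : 2 * ((E + E⁻¹) / 2 - e * c) = (E ^ 2 + 1 - 2 * e * c * E) / E := by
    field_simp
  rw [hden, hden2]
  field_simp

lemma PB_sign_left {x θ : ℝ} (hx : 0 < x) (hx1 : x < 1) (h : θ ∈ Ioo (2 * Real.pi * x) (2 * Real.pi)) :
    0 < xi x θ := by
  obtain ⟨h1, h2⟩ := h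
  have hp := Real.pi_pos
  have h0 : 0 < 2 * Real.pi * x := by positivity
  unfold xi
  apply div_pos
  · apply Real.sin_pos_of_pos_of_lt_pi
    · linarith
    · nlinarith
  · exact Real.sin_pos_of_pos_of_lt_pi (by linarith) (by linarith)

lemma PB_sign_right {x θ : ℝ} (hx : 0 < x) (hx1 : x < 1) (h : θ ∈ Ioo 0 (2 * Real.pi * x)) :
    xi x θ < 0 := by
  obtain ⟨h1, h2⟩ := h
  have hp := Real.pi_pos
  have h0 : 2 * Real.pi * x < 2 * Real.pi := by nlinarith
  unfold xi
  apply div_neg_of_neg_of_pos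
  · apply Real.sin_neg_of_neg_of_neg_pi_lt
    · linarith
    · nlinarith
  · exact Real.sin_pos_of_pos_of_lt_pi (by linarith) (by linarith)

lemma PB_image_left {x : ℝ} (hx : 0 < x) (hx1 : x < 1) :
    PB_th 1 x '' univ = Ioo (2 * Real.pi * x) (2 * Real.pi) := by
  have hp := Real.pi_pos
  ext θ
  constructor
  · rintro ⟨t, -, rfl⟩
    refine ⟨?_, PB_th_mem.2⟩
    by_contra hn
    push Not at hn
    have h1 := PB_xi_th (e := 1) (t := t) hx hx1
    rcases hn.lt_or_eq with h2 | h2
    · have := PB_sign_right hx hx1 ⟨PB_th_mem.1, h2⟩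
      rw [h1] at this
      have h3 := Real.exp_pos (-(Real.pi * t))
      linarith
    · rw [h2] at h1
      unfold xi at h1
      rw [show 2 * Real.pi * x / 2 - Real.pi * x = 0 by ring, Real.sin_zero, zero_div] at h1
      have h3 := Real.exp_pos (-(Real.pi * t))
      linarith
  · intro hθ
    have h1 := PB_sign_left hx hx1 hθ
    refine ⟨tt x θ, mem_univ _, ?_⟩
    apply PB_th_tt hx hx1 _ hθ.2 h1.ne'
    · rw [abs_of_pos h1, one_mul]
    · have : 0 < 2 * Real.pi * x := by positivity
      exact this.trans hθ.1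

lemma PB_image_right {x : ℝ} (hx : 0 < x) (hx1 : x < 1) :
    PB_th (-1) x '' univ = Ioo 0 (2 * Real.pi * x) := by
  have hp := Real.pi_pos
  ext θ
  constructor
  · rintro ⟨t, -, rfl⟩
    refine ⟨PB_th_mem.1, ?_⟩
    by_contra hn
    push Not at hn
    have h1 := PB_xi_th (e := -1) (t := t) hx hx1
    rcases hn.lt_or_eq with h2 | h2
    · have := PB_sign_left hx hx1 ⟨h2, PB_th_mem.2⟩
      rw [h1] at this
      have h3 := Real.exp_pos (-(Real.pi * t))
      linarith
    · rw [← h2] at h1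
      unfold xi at h1
      rw [show 2 * Real.pi * x / 2 - Real.pi * x = 0 by ring, Real.sin_zero, zero_div] at h1
      have h3 := Real.exp_pos (-(Real.pi * t))
      linarith
  · intro hθ
    have h1 := PB_sign_right hx hx1 hθ
    refine ⟨tt x θ, mem_univ _, ?_⟩
    apply PB_th_tt hx hx1 hθ.1 _ h1.ne
    · rw [abs_of_neg h1]; ring
    · have : 2 * Real.pi * x < 2 * Real.pi := by nlinarith
      exact hθ.2.trans this

lemma PB_inj {e x : ℝ} (he : |e| = 1) (hx : 0 < x) (hx1 : x < 1) : InjOn (PB_th e x) univ := by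
  intro t _ t' _ h
  rw [← PB_tt_th (t := t) he hx hx1, h, PB_tt_th he hx hx1]

lemma PB_abs {e x : ℝ} (he : |e| = 1) (hx : 0 < x) (hx1 : x < 1) (t : ℝ) :
    |-(2 * Real.pi * e * (Real.sin (Real.pi * x) /
      (2 * (Real.cosh (Real.pi * t) - e * Real.cos (Real.pi * x)))))| =
      2 * Real.pi * (Real.sin (Real.pi * x) /
      (2 * (Real.cosh (Real.pi * t) - e * Real.cos (Real.pi * x)))) := by
  have hs := PB_sin_pos hx hx1
  have hk := PB_kernel_pos (t := t) he hx hx1
  have hp := Real.pi_pos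
  rw [abs_neg, abs_mul, abs_mul, he, mul_one, abs_of_pos (by positivity), abs_of_pos (by positivity)]

lemma PB_kernel_left {x t : ℝ} : Real.sin (Real.pi * x) /
      (2 * (Real.cosh (Real.pi * t) - 1 * Real.cos (Real.pi * x))) = stripKernel x t := by
  unfold stripKernel
  rw [one_mul]

lemma PB_kernel_right {x t : ℝ} : Real.sin (Real.pi * x) /
      (2 * (Real.cosh (Real.pi * t) - (-1) * Real.cos (Real.pi * x))) = stripKernel (1 - x) t := by
  unfold stripKernel
  rw [show Real.pi * (1 - x) = Real.pi - Real.pi * x by ring, Real.sin_pi_sub, Real.cos_pi_sub]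
  ring

lemma PB_int {e x : ℝ} (he : |e| = 1) (hx : 0 < x) (hx1 : x < 1) (g : ℝ → ℝ) :
    ∫ θ in PB_th e x '' univ, g (tt x θ) =
      2 * Real.pi * ∫ t : ℝ, (Real.sin (Real.pi * x) /
      (2 * (Real.cosh (Real.pi * t) - e * Real.cos (Real.pi * x)))) * g t := by
  rw [integral_image_eq_integral_abs_deriv_smul MeasurableSet.univ
    (fun t _ => (PB_deriv he hx hx1 t).hasDerivWithinAt) (PB_inj he hx hx1)]
  rw [← integral_const_mul, Measure.restrict_univ]
  apply integral_congr_ae
  filter_upwards with t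
  rw [PB_abs he hx hx1, PB_tt_th he hx hx1, smul_eq_mul]
  ring

lemma PB_integrable {e x : ℝ} (he : |e| = 1) (hx : 0 < x) (hx1 : x < 1) (g : ℝ → ℝ) :
    IntegrableOn (fun θ => g (tt x θ)) (PB_th e x '' univ) ↔
      Integrable fun t : ℝ => (Real.sin (Real.pi * x) /
      (2 * (Real.cosh (Real.pi * t) - e * Real.cos (Real.pi * x)))) * g t := by
  rw [integrableOn_image_iff_integrableOn_abs_deriv_smul MeasurableSet.univ
    (fun t _ => (PB_deriv he hx hx1 t).hasDerivWithinAt) (PB_inj he hx hx1)]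
  rw [integrableOn_univ]
  have h1 : (fun t : ℝ => |-(2 * Real.pi * e * (Real.sin (Real.pi * x) /
      (2 * (Real.cosh (Real.pi * t) - e * Real.cos (Real.pi * x)))))| • g (tt x (PB_th e x t))) =
      fun t : ℝ => (2 * Real.pi) * ((Real.sin (Real.pi * x) /
      (2 * (Real.cosh (Real.pi * t) - e * Real.cos (Real.pi * x)))) * g t) := by
    funext t
    rw [PB_abs he hx hx1, PB_tt_th he hx hx1, smul_eq_mul]
    ring
  rw [h1]
  apply integrable_const_mul_iff
  exact (mul_pos two_pos Real.pi_pos).ne'.isUnit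

/-- wd:PB  change of variables on the left arc. -/
theorem circle_left {x : ℝ} (hx : 0 < x) (hx1 : x < 1) (g : ℝ → ℝ) :
    ∫ θ in Ioo (2 * Real.pi * x) (2 * Real.pi), g (tt x θ) =
      2 * Real.pi * ∫ t : ℝ, stripKernel x t * g t := by
  rw [← PB_image_left hx hx1, PB_int abs_one hx hx1]
  simp only [PB_kernel_left]

theorem circle_left_integrable {x : ℝ} (hx : 0 < x) (hx1 : x < 1) (g : ℝ → ℝ) :
    IntegrableOn (fun θ => g (tt x θ)) (Ioo (2 * Real.pi * x) (2 * Real.pi)) ↔
      Integrable fun t : ℝ => stripKernel x t * g t := by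
  rw [← PB_image_left hx hx1, PB_integrable abs_one hx hx1]
  simp only [PB_kernel_left]

/-- wd:PB  the right arc. -/
theorem circle_right {x : ℝ} (hx : 0 < x) (hx1 : x < 1) (g : ℝ → ℝ) :
    ∫ θ in Ioo 0 (2 * Real.pi * x), g (tt x θ) =
      2 * Real.pi * ∫ t : ℝ, stripKernel (1 - x) t * g t := by
  rw [← PB_image_right hx hx1, PB_int (by simp) hx hx1]
  simp only [PB_kernel_right]

theorem circle_right_integrable {x : ℝ} (hx : 0 < x) (hx1 : x < 1) (g : ℝ → ℝ) :
    IntegrableOn (fun θ => g (tt x θ)) (Ioo 0 (2 * Real.pi * x)) ↔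
      Integrable fun t : ℝ => stripKernel (1 - x) t * g t := by
  rw [← PB_image_right hx hx1, PB_integrable (by simp) hx hx1]
  simp only [PB_kernel_right]

end Pool.Agent.helper33.WD
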